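import Pool.Agent.Helper91.IP.Defs

/-!
# IP-E8: the representation lemma
-/

namespace Pool.Agent.Helper77.IP

open Finset Equiv Matrix Pool.Agent.Helper91.IP
open scoped Kronecker

section general

variable {ι : Type} [Fintype ι] [DecidableEq ι]

theorem trace_sq_sum (N : Matrix ι ι ℝ) (hs : N.IsSymm) (hi : N * N = N) :
    trace N = ∑ i, ∑ j, N i j ^ 2 := by
  conv_lhs => rw [← hi]
  simp only [trace, diag_apply, mul_apply]
  refine sum_congr rfl fun i _ => sum_congr rfl fun j _ => ?_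
  rw [sq, hs.apply i j]

theorem one_le_trace (Q : Matrix ι ι ℝ) (hs : Q.IsSymm) (hi : Q * Q = Q) (v : ι → ℝ) (hv : v ≠ 0)
    (hQ : Q *ᵥ v = v) : 1 ≤ trace Q := by
  have hc : 0 < v ⬝ᵥ v := by
    have h1 : 0 ≤ v ⬝ᵥ v := by
      simp only [dotProduct]
      exact sum_nonneg fun i _ => mul_self_nonneg _
    refine lt_of_le_of_ne h1 fun h => hv ?_
    exact dotProduct_self_eq_zero.mp h.symm
  set c := v ⬝ᵥ v with hcdef
  set P : Matrix ι ι ℝ := c⁻¹ • vecMulVec v v with hP
  have hvQ : v ᵥ* Q = v := by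
    rw [← mulVec_transpose, hs.eq, hQ]
  have hQP : Q * P = P := by
    rw [hP, Matrix.mul_smul, mul_vecMulVec, hQ]
  have hPQ : P * Q = P := by
    rw [hP, Matrix.smul_mul, vecMulVec_mul, hvQ]
  have hPP : P * P = P := by
    rw [hP, Matrix.smul_mul, Matrix.mul_smul, vecMulVec_mul_vecMulVec, smul_smul, ← hcdef]
    rw [vecMulVec_smul, smul_smul]
    congr 1
    field_simp
  have hPs : Pᵀ = P := by
    rw [hP, transpose_smul, transpose_vecMulVec]
  have hNs : (Q - P).IsSymm := by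
    rw [IsSymm, transpose_sub, hs.eq, hPs]
  have hNi : (Q - P) * (Q - P) = Q - P := by
    rw [sub_mul, mul_sub, mul_sub, hi, hQP, hPQ, hPP]
    simp
  have h1 := trace_sq_sum (Q - P) hNs hNi
  have h2 : trace P = 1 := by
    rw [hP, trace_smul, trace_vecMulVec, smul_eq_mul, ← hcdef]
    field_simp
  have h3 : 0 ≤ trace (Q - P) := by
    rw [h1]
    exact sum_nonneg fun i _ => sum_nonneg fun j _ => sq_nonneg _
  rw [trace_sub, h2] at h3
  linarith

theorem trace_nonneg' (N : Matrix ι ι ℝ) (hs : N.IsSymm) (hi : N * N = N) : 0 ≤ trace N := by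
  rw [trace_sq_sum N hs hi]
  exact sum_nonneg fun i _ => sum_nonneg fun j _ => sq_nonneg _

theorem exists_fix (E : Matrix ι ι ℝ) (hi : E * E = E) (h0 : E ≠ 0) :
    ∃ v : ι → ℝ, v ≠ 0 ∧ E *ᵥ v = v := by
  by_contra hcon
  push Not at hcon
  apply h0
  have h1 : ∀ v : ι → ℝ, E *ᵥ v = 0 := by
    intro v
    by_contra hne
    exact hcon (E *ᵥ v) hne (by rw [mulVec_mulVec, hi])
  ext i j
  have := congrFun (h1 (Pi.single j 1)) i
  simpa using this

theorem one_le_trace_idem (E : Matrix ι ι ℝ) (hs : E.IsSymm) (hi : E * E = E) (h0 : E ≠ 0) :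
    1 ≤ trace E := by
  obtain ⟨v, hv, h⟩ := exists_fix E hi h0
  exact one_le_trace E hs hi v hv h

variable {A : Type} [Group A] [Fintype A]

/-- average of the commutators -/
noncomputable def kap (ρ : A →* Matrix ι ι ℝ) : Matrix ι ι ℝ :=
  ((Fintype.card A : ℝ) ^ 2)⁻¹ • ∑ a : A, ∑ b : A, ρ (a * b * a⁻¹ * b⁻¹)

theorem chi_sq (ρ : A →* Matrix ι ι ℝ) (hρ : ∀ a, (ρ a)ᵀ = ρ a⁻¹) (E : Matrix ι ι ℝ)
    (hs : E.IsSymm) (hi : E * E = E) (hc : ∀ a, E * ρ a = ρ a * E) (h0 : E ≠ 0) :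
    (Fintype.card A : ℝ) ≤ ∑ a, trace (ρ a * E) ^ 2 := by
  have hN : (0 : ℝ) < Fintype.card A := by exact_mod_cast Fintype.card_pos
  have hmul : ∀ a b, ρ a * E * (ρ b * E) = ρ (a * b) * E := by
    intro a b
    rw [mul_assoc, ← mul_assoc E (ρ b) E, hc b, mul_assoc (ρ b), hi, ← mul_assoc, ← map_mul]
  have htr : ∀ a, (ρ a * E)ᵀ = ρ a⁻¹ * E := by
    intro a
    rw [transpose_mul, hρ, hs.eq, hc]
  set K : A → Matrix (ι × ι) (ι × ι) ℝ := fun a => (ρ a * E) ⊗ₖ (ρ a * E) with hK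
  have hKK : ∀ a b, K a * K b = K (a * b) := by
    intro a b
    simp only [hK]
    rw [← mul_kronecker_mul, hmul]
  have hKt : ∀ a, (K a)ᵀ = K a⁻¹ := by
    intro a
    simp only [hK]
    rw [← kroneckerMap_transpose, htr]
  set Q : Matrix (ι × ι) (ι × ι) ℝ := (Fintype.card A : ℝ)⁻¹ • ∑ a, K a with hQ
  have hQs : Q.IsSymm := by
    rw [IsSymm, hQ, transpose_smul, transpose_sum]
    congr 1
    simp only [hKt]
    exact Fintype.sum_equiv (Equiv.inv A) _ _ fun a => rfl
  have hQi : Q * Q = Q := by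
    rw [hQ, Matrix.smul_mul, Matrix.mul_smul, smul_smul, sum_mul_sum]
    have h1 : ∀ a : A, ∑ b, K a * K b = ∑ b, K b := by
      intro a
      simp only [hKK]
      exact Fintype.sum_equiv (Equiv.mulLeft a) _ _ fun b => rfl
    simp only [h1, sum_const, card_univ]
    rw [← Nat.cast_smul_eq_nsmul ℝ, smul_smul]
    congr 1
    field_simp
  set v : ι × ι → ℝ := fun p => E p.1 p.2 with hv
  have hv0 : v ≠ 0 := by
    intro h
    apply h0
    ext i j
    exact congrFun h (i, j)
  have hKv : ∀ a, K a *ᵥ v = v := by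
    intro a
    funext p
    have h1 : (K a *ᵥ v) p = ((ρ a * E) * E * (ρ a * E)ᵀ) p.1 p.2 := by
      simp only [hK, mulVec, dotProduct, hv, mul_apply (M := ρ a * E * E), mul_apply (M := ρ a * E)
        (N := E), Fintype.sum_prod_type, kroneckerMap_apply, transpose_apply, sum_mul]
      rw [sum_comm]
      refine sum_congr rfl fun k _ => sum_congr rfl fun l _ => ?_
      ring
    rw [h1, htr, mul_assoc (ρ a) E E, hi, hmul, mul_inv_cancel, map_one, one_mul]
  have hQv : Q *ᵥ v = v := by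
    rw [hQ, smul_mulVec, sum_mulVec]
    simp only [hKv, sum_const, card_univ]
    rw [← Nat.cast_smul_eq_nsmul ℝ, smul_smul, inv_mul_cancel₀ hN.ne', one_smul]
  have h1 := one_le_trace Q hQs hQi v hv0 hQv
  rw [hQ, trace_smul, trace_sum, smul_eq_mul] at h1
  have h2 : ∀ a, trace (K a) = trace (ρ a * E) ^ 2 := by
    intro a
    simp only [hK]
    rw [trace_kronecker, sq]
  simp only [h2] at h1
  rw [inv_mul_eq_div, le_div_iff₀ hN, one_mul] at h1
  exact h1

theorem core (ρ : A →* Matrix ι ι ℝ) (hρ : ∀ a, (ρ a)ᵀ = ρ a⁻¹) (E : Matrix ι ι ℝ)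
    (hs : E.IsSymm) (hi : E * E = E) (hc : ∀ a, E * ρ a = ρ a * E) (h0 : E ≠ 0) :
    1 / trace E ≤ trace (kap ρ * E) := by
  have hN : (0 : ℝ) < Fintype.card A := by exact_mod_cast Fintype.card_pos
  have hD := one_le_trace_idem E hs hi h0
  have hD0 : 0 < trace E := by linarith
  have hmul : ∀ a b, ρ a * E * (ρ b * E) = ρ (a * b) * E := by
    intro a b
    rw [mul_assoc, ← mul_assoc E (ρ b) E, hc b, mul_assoc (ρ b), hi, ← mul_assoc, ← map_mul]
  have htr : ∀ a, (ρ a * E)ᵀ = ρ a⁻¹ * E := by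
    intro a
    rw [transpose_mul, hρ, hs.eq, hc]
  set χ : A → ℝ := fun a => trace (ρ a * E) with hχ
  have hcyc : ∀ a b, χ (a * b) = χ (b * a) := by
    intro a b
    simp only [hχ]
    rw [← hmul a b, ← hmul b a, trace_mul_comm]
  have hconj : ∀ a b, χ (b * a * b⁻¹) = χ a := by
    intro a b
    rw [mul_assoc, hcyc, mul_assoc, inv_mul_cancel, mul_one]
  set S : A → Matrix ι ι ℝ := fun a => ∑ b, ρ (b * a * b⁻¹) * E with hS
  have hES : ∀ a, E * S a = S a := by
    intro a
    simp only [hS, mul_sum]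
    refine sum_congr rfl fun b _ => ?_
    rw [← mul_assoc, hc, mul_assoc, hi]
  have htS : ∀ a, trace (S a) = Fintype.card A * χ a := by
    intro a
    simp only [hS, trace_sum]
    have : ∀ b : A, trace (ρ (b * a * b⁻¹) * E) = χ a := fun b => hconj a b
    simp only [this, sum_const, card_univ, nsmul_eq_mul]
  have hCS : ∀ a, (Fintype.card A * χ a) ^ 2 ≤ trace E * trace ((S a)ᵀ * S a) := by
    intro a
    rw [← htS a, trace_sq_sum E hs hi]
    have h1 : trace (S a) = ∑ p : ι × ι, E p.1 p.2 * S a p.2 p.1 := by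
      conv_lhs => rw [← hES a]
      simp only [trace, diag_apply, mul_apply, Fintype.sum_prod_type]
    have h2 : trace ((S a)ᵀ * S a) = ∑ p : ι × ι, S a p.2 p.1 ^ 2 := by
      simp only [trace, diag_apply, mul_apply, Fintype.sum_prod_type, transpose_apply, sq]
    have h3 : ∑ i, ∑ j, E i j ^ 2 = ∑ p : ι × ι, E p.1 p.2 ^ 2 := by
      simp only [Fintype.sum_prod_type]
    rw [h1, h2, h3]
    exact sum_mul_sq_le_sq_mul_sq _ _ _
  have hSS : ∑ a, trace ((S a)ᵀ * S a) =
      Fintype.card A * ∑ a, ∑ h, χ (a * h * a⁻¹ * h⁻¹) := by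
    have h1 : ∀ a, trace ((S a)ᵀ * S a) = ∑ b, ∑ b', χ (b * a⁻¹ * b⁻¹ * (b' * a * b'⁻¹)) := by
      intro a
      simp only [hS, transpose_sum, htr, sum_mul_sum, trace_sum, hmul]
      refine sum_congr rfl fun b _ => sum_congr rfl fun b' _ => ?_
      simp only [hχ]
      congr 3
      group
    have h2 : ∀ a b : A, ∑ b', χ (b * a⁻¹ * b⁻¹ * (b' * a * b'⁻¹)) =
        ∑ h, χ (a⁻¹ * h * a⁻¹⁻¹ * h⁻¹) := by
      intro a b
      rw [← Fintype.sum_equiv (Equiv.mulLeft b) (fun h => χ (b * a⁻¹ * b⁻¹ * ((b * h) * a * (b * h)⁻¹)))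
        (fun b' => χ (b * a⁻¹ * b⁻¹ * (b' * a * b'⁻¹))) (fun h => rfl)]
      refine sum_congr rfl fun h _ => ?_
      rw [← hconj (a⁻¹ * h * a⁻¹⁻¹ * h⁻¹) b]
      congr 1
      group
    simp only [h1, h2, sum_const, card_univ, nsmul_eq_mul]
    rw [← mul_sum]
    congr 1
    exact Fintype.sum_equiv (Equiv.inv A) _ _ fun a => rfl
  have hsum : (Fintype.card A : ℝ) ^ 2 * ∑ a, χ a ^ 2 ≤
      trace E * (Fintype.card A * ∑ a, ∑ h, χ (a * h * a⁻¹ * h⁻¹)) := by
    rw [← hSS, mul_sum, mul_sum]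
    refine sum_le_sum fun a _ => ?_
    rw [← mul_pow]
    exact hCS a
  have hchi : (Fintype.card A : ℝ) ≤ ∑ a, χ a ^ 2 := chi_sq ρ hρ E hs hi hc h0
  have hfin : trace (kap ρ * E) =
      ((Fintype.card A : ℝ) ^ 2)⁻¹ * ∑ a, ∑ h, χ (a * h * a⁻¹ * h⁻¹) := by
    rw [kap, Matrix.smul_mul, trace_smul, smul_eq_mul, sum_mul, trace_sum]
    congr 1
    refine sum_congr rfl fun a _ => ?_
    rw [sum_mul, trace_sum]
  rw [hfin, inv_mul_eq_div, div_le_div_iff₀ hD0 (by positivity), one_mul]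
  have h5 : (Fintype.card A : ℝ) ^ 2 * (Fintype.card A : ℝ) ≤
      (Fintype.card A : ℝ) ^ 2 * ∑ a, χ a ^ 2 := mul_le_mul_of_nonneg_left hchi (by positivity)
  have h6 := h5.trans hsum
  nlinarith [h6, hN]

theorem kap_transpose (ρ : A →* Matrix ι ι ℝ) (hρ : ∀ a, (ρ a)ᵀ = ρ a⁻¹) :
    (kap ρ)ᵀ = kap ρ := by
  rw [kap, transpose_smul, transpose_sum, sum_comm]
  congr 1
  refine sum_congr rfl fun a _ => ?_
  rw [transpose_sum]
  refine sum_congr rfl fun b _ => ?_
  rw [hρ]
  congr 1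
  group

theorem kap_comm (ρ : A →* Matrix ι ι ℝ) (g : A) : ρ g * kap ρ = kap ρ * ρ g := by
  rw [kap, Matrix.mul_smul, Matrix.smul_mul]
  congr 1
  rw [mul_sum, sum_mul]
  rw [← Fintype.sum_equiv (MulAut.conj g).toEquiv
    (fun a => (∑ b, ρ ((g * a * g⁻¹) * b * (g * a * g⁻¹)⁻¹ * b⁻¹)) * ρ g)
    (fun a => (∑ b, ρ (a * b * a⁻¹ * b⁻¹)) * ρ g) (fun a => rfl)]
  refine sum_congr rfl fun a _ => ?_
  rw [mul_sum, sum_mul]
  rw [← Fintype.sum_equiv (MulAut.conj g).toEquiv
    (fun b => ρ ((g * a * g⁻¹) * (g * b * g⁻¹) * (g * a * g⁻¹)⁻¹ * (g * b * g⁻¹)⁻¹) * ρ g)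
    (fun b => ρ ((g * a * g⁻¹) * b * (g * a * g⁻¹)⁻¹ * b⁻¹) * ρ g) (fun b => rfl)]
  refine sum_congr rfl fun b _ => ?_
  rw [← map_mul, ← map_mul]
  congr 1
  group

theorem comm_kap (ρ : A →* Matrix ι ι ℝ) (X : Matrix ι ι ℝ) (h : ∀ a, X * ρ a = ρ a * X) :
    X * kap ρ = kap ρ * X := by
  rw [kap, Matrix.mul_smul, Matrix.smul_mul, mul_sum, sum_mul]
  congr 1
  refine sum_congr rfl fun a _ => ?_
  rw [mul_sum, sum_mul]
  exact sum_congr rfl fun b _ => h _

theorem kap_coprod {B : Type} [Group B] [Fintype B] (ρ : A →* Matrix ι ι ℝ)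
    (σ : B →* Matrix ι ι ℝ) (h : ∀ a b, Commute (ρ a) (σ b)) :
    kap (ρ.noncommCoprod σ h) = kap ρ * kap σ := by
  rw [kap, kap, kap, Matrix.smul_mul, Matrix.mul_smul, smul_smul, Fintype.card_prod]
  congr 1
  · push_cast
    rw [mul_pow, mul_inv]
  · rw [sum_mul_sum, Fintype.sum_prod_type]
    refine sum_congr rfl fun a _ => sum_congr rfl fun a' _ => ?_
    rw [sum_mul_sum, Fintype.sum_prod_type]
    refine sum_congr rfl fun b _ => sum_congr rfl fun b' _ => ?_
    rw [MonoidHom.noncommCoprod_apply]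
    rfl

theorem coprod_transpose {B : Type} [Group B] (ρ : A →* Matrix ι ι ℝ)
    (σ : B →* Matrix ι ι ℝ) (h : ∀ a b, Commute (ρ a) (σ b)) (hρ : ∀ a, (ρ a)ᵀ = ρ a⁻¹)
    (hσ : ∀ a, (σ a)ᵀ = σ a⁻¹) (p : A × B) :
    (ρ.noncommCoprod σ h p)ᵀ = ρ.noncommCoprod σ h p⁻¹ := by
  rw [MonoidHom.noncommCoprod_apply, MonoidHom.noncommCoprod_apply, transpose_mul, hρ, hσ]
  exact (h _ _).eq.symm

theorem diag_exists (M : Matrix ι ι ℝ) (hM : M.IsSymm) : ∃ (U : Matrix ι ι ℝ) (l : ι → ℝ),
    U * Uᵀ = 1 ∧ Uᵀ * U = 1 ∧ M = U * diagonal l * Uᵀ := by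
  have hH : M.IsHermitian := by
    rw [IsHermitian, conjTranspose_eq_transpose_of_trivial]
    exact hM
  refine ⟨(hH.eigenvectorUnitary : Matrix ι ι ℝ), hH.eigenvalues, ?_, ?_, ?_⟩
  · have := Unitary.coe_mul_star_self hH.eigenvectorUnitary
    rwa [Unitary.coe_star, star_eq_conjTranspose, conjTranspose_eq_transpose_of_trivial] at this
  · have := Unitary.coe_star_mul_self hH.eigenvectorUnitary
    rwa [star_eq_conjTranspose, conjTranspose_eq_transpose_of_trivial] at this
  · have := hH.spectral_theorem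
    rw [Unitary.conjStarAlgAut_apply, star_eq_conjTranspose,
      conjTranspose_eq_transpose_of_trivial] at this
    exact this

theorem split (M E : Matrix ι ι ℝ) (hM : M.IsSymm) (hME : M * E = M) (h0 : E ≠ 0) (hn : ∀ a : ℝ, M ≠ a • E) :
    ∃ F : Matrix ι ι ℝ, F.IsSymm ∧ F * F = F ∧ (∀ X, X * M = M * X → X * F = F * X) ∧
      F * E ≠ 0 ∧ F * E ≠ E := by
  obtain ⟨U, l, h1, h2, h3⟩ := diag_exists M hM
  let f : ℝ → ι → ℝ := fun a j => if l j = a then 1 else 0
  let F : ℝ → Matrix ι ι ℝ := fun a => U * diagonal (f a) * Uᵀ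
  have hFs : ∀ a, (F a).IsSymm := by
    intro a
    simp only [F, IsSymm, transpose_mul, transpose_transpose, diagonal_transpose, mul_assoc]
  have hFi : ∀ a, F a * F a = F a := by
    intro a
    simp only [F]
    calc U * diagonal (f a) * Uᵀ * (U * diagonal (f a) * Uᵀ)
        = U * (diagonal (f a) * (Uᵀ * U) * diagonal (f a)) * Uᵀ := by
          simp only [mul_assoc]
      _ = U * diagonal (f a) * Uᵀ := by
          rw [h2, mul_one, diagonal_mul_diagonal]
          congr 3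
          funext j
          simp only [f]
          split_ifs <;> norm_num
  have hMF : ∀ a, M * F a = a • F a := by
    intro a
    rw [h3]
    simp only [F]
    calc U * diagonal l * Uᵀ * (U * diagonal (f a) * Uᵀ)
        = U * (diagonal l * (Uᵀ * U) * diagonal (f a)) * Uᵀ := by
          simp only [mul_assoc]
      _ = a • (U * diagonal (f a) * Uᵀ) := by
          rw [h2, mul_one, diagonal_mul_diagonal]
          have : (diagonal fun i => l i * f a i) = a • diagonal (f a) := by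
            rw [← diagonal_smul]
            congr 1
            funext j
            simp only [f, Pi.smul_apply, smul_eq_mul]
            split_ifs with h
            · rw [h]
            · simp
          rw [this, Matrix.mul_smul, Matrix.smul_mul]
  have hFc : ∀ a, ∀ X, X * M = M * X → X * F a = F a * X := by
    intro a X hX
    have hY : (Uᵀ * X * U) * diagonal l = diagonal l * (Uᵀ * X * U) := by
      have e1 : (Uᵀ * X * U) * diagonal l = Uᵀ * (X * M) * U := by
        rw [h3]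
        calc (Uᵀ * X * U) * diagonal l = Uᵀ * X * U * diagonal l * (Uᵀ * U) := by
              rw [h2, mul_one]
          _ = _ := by simp only [mul_assoc]
      have e2 : diagonal l * (Uᵀ * X * U) = Uᵀ * (M * X) * U := by
        rw [h3]
        calc diagonal l * (Uᵀ * X * U) = (Uᵀ * U) * diagonal l * (Uᵀ * X * U) := by
              rw [h2, one_mul]
          _ = _ := by simp only [mul_assoc]
      rw [e1, e2, hX]
    have hYf : (Uᵀ * X * U) * diagonal (f a) = diagonal (f a) * (Uᵀ * X * U) := by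
      ext j k
      have h4 := congrFun (congrFun hY j) k
      rw [mul_diagonal, diagonal_mul] at h4 ⊢
      by_cases hjk : l j = l k
      · simp only [f, hjk]
        ring
      · have : (Uᵀ * X * U) j k = 0 := by
          have h5 : (l k - l j) * (Uᵀ * X * U) j k = 0 := by linarith
          rcases mul_eq_zero.mp h5 with h6 | h6
          · exact absurd (by linarith) hjk
          · exact h6
        rw [this]
        ring
    simp only [F]
    calc X * (U * diagonal (f a) * Uᵀ) = (U * Uᵀ) * X * (U * diagonal (f a) * Uᵀ) := by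
          rw [h1, one_mul]
      _ = U * ((Uᵀ * X * U) * diagonal (f a)) * Uᵀ := by simp only [mul_assoc]
      _ = U * (diagonal (f a) * (Uᵀ * X * U)) * Uᵀ := by rw [hYf]
      _ = U * diagonal (f a) * Uᵀ * X * (U * Uᵀ) := by simp only [mul_assoc]
      _ = U * diagonal (f a) * Uᵀ * X := by rw [h1, mul_one]
  by_contra hcon
  have hall : ∀ a, F a * E = 0 ∨ F a * E = E := by
    intro a
    by_contra h
    push Not at h
    exact hcon ⟨F a, hFs a, hFi a, hFc a, h.1, h.2⟩
  have hE0 : ∀ a, F a * E = 0 := by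
    intro a
    rcases hall a with h | h
    · exact h
    · exfalso
      apply hn a
      rw [← hME]
      conv_lhs => rw [← h]
      rw [← mul_assoc, hMF, Matrix.smul_mul, h]
  apply h0
  have h4 : Uᵀ * E = 0 := by
    ext j k
    have h5 : Uᵀ * (F (l j) * E) = diagonal (f (l j)) * (Uᵀ * E) := by
      simp only [F]
      calc Uᵀ * (U * diagonal (f (l j)) * Uᵀ * E) = (Uᵀ * U) * diagonal (f (l j)) * (Uᵀ * E) := by
            simp only [mul_assoc]
        _ = _ := by rw [h2, one_mul]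
    rw [hE0, mul_zero] at h5
    have h6 := congrFun (congrFun h5 j) k
    rw [diagonal_mul] at h6
    simp only [f, if_true, one_mul] at h6
    exact h6.symm
  calc E = (U * Uᵀ) * E := by rw [h1, one_mul]
    _ = 0 := by rw [mul_assoc, h4, mul_zero]

theorem amgm {k0 k1 k2 k3 D : ℝ} (h0 : 0 < k0) (h1 : 0 < k1) (h2 : 0 < k2) (h3 : 0 < k3)
    (hD : 0 < D) (h : 1 ≤ k0 * k1 * k2 * k3 * D ^ 2) :
    4 * Real.sqrt D ≤ (k0 + k1 + k2 + k3) * D := by
  set r := Real.sqrt D with hr
  have hr0 : 0 < r := Real.sqrt_pos.mpr hD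
  have hrD : r ^ 2 = D := Real.sq_sqrt hD.le
  have hx : 4 * (k0 * k1) ≤ (k0 + k1) ^ 2 := by nlinarith [sq_nonneg (k0 - k1)]
  have hy : 4 * (k2 * k3) ≤ (k2 + k3) ^ 2 := by nlinarith [sq_nonneg (k2 - k3)]
  have hxy : 4 * ((k0 + k1) * (k2 + k3)) ≤ (k0 + k1 + k2 + k3) ^ 2 := by
    nlinarith [sq_nonneg (k0 + k1 - (k2 + k3))]
  have h4 : 256 * (k0 * k1 * k2 * k3) ≤ (k0 + k1 + k2 + k3) ^ 4 := by
    have e1 : (4 * ((k0 + k1) * (k2 + k3))) ^ 2 ≤ ((k0 + k1 + k2 + k3) ^ 2) ^ 2 :=
      pow_le_pow_left₀ (by positivity) hxy 2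
    have e2 : (4 * (k0 * k1)) * (4 * (k2 * k3)) ≤ (k0 + k1) ^ 2 * (k2 + k3) ^ 2 :=
      mul_le_mul hx hy (by positivity) (by positivity)
    nlinarith [e1, e2]
  have h5 : (4 : ℝ) ^ 4 ≤ ((k0 + k1 + k2 + k3) * r) ^ 4 := by
    rw [mul_pow]
    have e3 : r ^ 4 = D ^ 2 := by rw [← hrD]; ring
    rw [e3]
    have e4 : 256 * (k0 * k1 * k2 * k3) * D ^ 2 ≤ (k0 + k1 + k2 + k3) ^ 4 * D ^ 2 :=
      mul_le_mul_of_nonneg_right h4 (by positivity)
    nlinarith [e4, h]
  have h6 : (4 : ℝ) ≤ (k0 + k1 + k2 + k3) * r :=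
    le_of_pow_le_pow_left₀ (by norm_num) (by positivity) h5
  rw [← hrD]
  nlinarith [h6, hr0]

section family

variable {G : Fin 4 → Type} [∀ i, Group (G i)] [∀ i, Fintype (G i)]

theorem scalar_case (ρ : ∀ i, G i →* Matrix ι ι ℝ) (hρ : ∀ i a, (ρ i a)ᵀ = ρ i a⁻¹)
    (hcomm : ∀ i j, i ≠ j → ∀ a b, Commute (ρ i a) (ρ j b)) (E : Matrix ι ι ℝ) (hs : E.IsSymm)
    (hi : E * E = E) (hc : ∀ i a, E * ρ i a = ρ i a * E) (h0 : E ≠ 0) (k : Fin 4 → ℝ)
    (hk : ∀ i, kap (ρ i) * E = k i • E) :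
    4 * Real.sqrt (trace E) ≤ ∑ i, trace (kap (ρ i) * E) := by
  have hD := one_le_trace_idem E hs hi h0
  have hD0 : 0 < trace E := by linarith
  have hk0 : ∀ i, 0 < k i := by
    intro i
    have h1 := core (ρ i) (hρ i) E hs hi (hc i) h0
    rw [hk, trace_smul, smul_eq_mul] at h1
    have h2 : 0 < 1 / trace E := by positivity
    exact pos_of_mul_pos_left (lt_of_lt_of_le h2 h1) hD0.le
  let ρ01 := (ρ 0).noncommCoprod (ρ 1) (hcomm 0 1 (by decide))
  let ρ23 := (ρ 2).noncommCoprod (ρ 3) (hcomm 2 3 (by decide))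
  have hc2 : ∀ p q, Commute (ρ01 p) (ρ23 q) := by
    intro p q
    simp only [ρ01, ρ23, MonoidHom.noncommCoprod_apply]
    refine Commute.mul_left (Commute.mul_right ?_ ?_) (Commute.mul_right ?_ ?_)
    · exact hcomm 0 2 (by decide) _ _
    · exact hcomm 0 3 (by decide) _ _
    · exact hcomm 1 2 (by decide) _ _
    · exact hcomm 1 3 (by decide) _ _
  have ht01 : ∀ p, (ρ01 p)ᵀ = ρ01 p⁻¹ := coprod_transpose _ _ _ (hρ 0) (hρ 1)
  have ht23 : ∀ p, (ρ23 p)ᵀ = ρ23 p⁻¹ := coprod_transpose _ _ _ (hρ 2) (hρ 3)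
  have hE01 : ∀ p, Commute E (ρ01 p) := by
    intro p
    simp only [ρ01, MonoidHom.noncommCoprod_apply]
    exact Commute.mul_right (hc 0 _) (hc 1 _)
  have hE23 : ∀ p, Commute E (ρ23 p) := by
    intro p
    simp only [ρ23, MonoidHom.noncommCoprod_apply]
    exact Commute.mul_right (hc 2 _) (hc 3 _)
  have h1 := core (ρ01.noncommCoprod ρ23 hc2) (coprod_transpose _ _ _ ht01 ht23) E hs hi
    (fun p => by
      rw [MonoidHom.noncommCoprod_apply]
      exact (Commute.mul_right (hE01 _) (hE23 _)).eq) h0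
  have h2 : kap (ρ01.noncommCoprod ρ23 hc2) * E = (k 0 * k 1 * k 2 * k 3) • E := by
    rw [kap_coprod, kap_coprod, kap_coprod]
    calc kap (ρ 0) * kap (ρ 1) * (kap (ρ 2) * kap (ρ 3)) * E
        = kap (ρ 0) * (kap (ρ 1) * (kap (ρ 2) * (kap (ρ 3) * E))) := by simp only [mul_assoc]
      _ = (k 0 * k 1 * k 2 * k 3) • E := by
          simp only [hk, Matrix.mul_smul, smul_smul]
          congr 1
          ring
  rw [h2, trace_smul, smul_eq_mul, div_le_iff₀ hD0] at h1
  have h3 : ∑ i, trace (kap (ρ i) * E) = (k 0 + k 1 + k 2 + k 3) * trace E := by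
    simp only [hk, trace_smul, smul_eq_mul, Fin.sum_univ_four]
    ring
  rw [h3]
  refine amgm (hk0 0) (hk0 1) (hk0 2) (hk0 3) hD0 ?_
  nlinarith [h1]

theorem main_ind (ρ : ∀ i, G i →* Matrix ι ι ℝ) (hρ : ∀ i a, (ρ i a)ᵀ = ρ i a⁻¹)
    (hcomm : ∀ i j, i ≠ j → ∀ a b, Commute (ρ i a) (ρ j b)) (m : ℕ) :
    ∀ E : Matrix ι ι ℝ, E.IsSymm → E * E = E → (∀ i a, E * ρ i a = ρ i a * E) → trace E ≤ m →
      4 * Real.sqrt (trace E) ≤ ∑ i, trace (kap (ρ i) * E) := by
  induction m with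
  | zero =>
    intro E hs hi hc htr
    have hE : E = 0 := by
      by_contra h
      have := one_le_trace_idem E hs hi h
      rw [Nat.cast_zero] at htr
      linarith
    subst hE
    simp
  | succ m ih =>
    intro E hs hi hc htr
    by_cases h0 : E = 0
    · subst h0
      simp
    by_cases hall : ∀ i, ∃ k : ℝ, kap (ρ i) * E = k • E
    · choose k hk using hall
      exact scalar_case ρ hρ hcomm E hs hi hc h0 k hk
    push Not at hall
    obtain ⟨i, hn⟩ := hall
    have hEk : E * kap (ρ i) = kap (ρ i) * E := comm_kap (ρ i) E (hc i)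
    set M := kap (ρ i) * E with hM
    have hMs : M.IsSymm := by
      rw [IsSymm, hM, transpose_mul, hs.eq, kap_transpose (ρ i) (hρ i), hEk]
    have hME : M * E = M := by rw [hM, mul_assoc, hi]
    have hEM : E * M = M * E := by
      rw [hME, hM, ← mul_assoc, hEk, mul_assoc, hi]
    obtain ⟨F, hFs, hFi, hFc, hF0, hF1⟩ := split M E hMs hME h0 hn
    have hFE : E * F = F * E := hFc E hEM
    have hFρ : ∀ j a, F * ρ j a = ρ j a * F := by
      intro j a
      refine (hFc (ρ j a) ?_).symm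
      have hkj : ρ j a * kap (ρ i) = kap (ρ i) * ρ j a := by
        by_cases hij : j = i
        · subst hij
          exact kap_comm (ρ j) a
        · exact comm_kap (ρ i) (ρ j a) fun b => (hcomm j i hij a b).eq
      rw [hM, ← mul_assoc, hkj, mul_assoc, ← hc j a, mul_assoc]
    have hs1 : (F * E).IsSymm := by
      rw [IsSymm, transpose_mul, hs.eq, hFs.eq, hFE]
    have hi1 : (F * E) * (F * E) = F * E := by
      rw [mul_assoc, ← mul_assoc E F E, hFE, mul_assoc F E E, hi, ← mul_assoc, hFi]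
    have hc1 : ∀ j a, (F * E) * ρ j a = ρ j a * (F * E) := by
      intro j a
      rw [mul_assoc, hc, ← mul_assoc, hFρ, mul_assoc]
    have hEFE : E * (F * E) = F * E := by rw [← mul_assoc, hFE, mul_assoc, hi]
    have hFEE : F * E * E = F * E := by rw [mul_assoc, hi]
    have hs2 : (E - F * E).IsSymm := by
      rw [IsSymm, transpose_sub, hs.eq, hs1.eq]
    have hi2 : (E - F * E) * (E - F * E) = E - F * E := by
      rw [sub_mul, mul_sub, mul_sub, hi, hEFE, hFEE, hi1]
      simp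
    have hc2 : ∀ j a, (E - F * E) * ρ j a = ρ j a * (E - F * E) := by
      intro j a
      rw [sub_mul, mul_sub, hc, hc1]
    have h20 : E - F * E ≠ 0 := by
      intro h
      exact hF1 (sub_eq_zero.mp h).symm
    have t1 := one_le_trace_idem _ hs1 hi1 hF0
    have t2 := one_le_trace_idem _ hs2 hi2 h20
    have t3 : trace (F * E) + trace (E - F * E) = trace E := by
      rw [trace_sub]
      ring
    push_cast at htr
    have i1 := ih (F * E) hs1 hi1 hc1 (by linarith)
    have i2 := ih (E - F * E) hs2 hi2 hc2 (by linarith)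
    have h3 : ∑ i, trace (kap (ρ i) * E) = ∑ i, trace (kap (ρ i) * (F * E)) +
        ∑ i, trace (kap (ρ i) * (E - F * E)) := by
      rw [← sum_add_distrib]
      refine sum_congr rfl fun j _ => ?_
      rw [mul_sub, trace_sub]
      ring
    rw [h3]
    have h4 : Real.sqrt (trace E) ≤ Real.sqrt (trace (F * E)) + Real.sqrt (trace (E - F * E)) := by
      rw [← t3]
      apply Real.sqrt_le_iff.mpr
      constructor
      · positivity
      · rw [add_sq, Real.sq_sqrt (by linarith), Real.sq_sqrt (by linarith)]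
        have := mul_nonneg (Real.sqrt_nonneg (trace (F * E))) (Real.sqrt_nonneg (trace (E - F * E)))
        nlinarith
    linarith

end family

end general

section perm

variable {V : Type} [Fintype V] [DecidableEq V]

theorem Rm_mulVec (g : Perm V) (f : Perm V → ℝ) (s : Perm V) : (Rm g *ᵥ f) s = f (s * g) := by
  simp [Rm, mulVec, dotProduct]

/-- the right regular representation -/
noncomputable def RmHom : Perm V →* Matrix (Perm V) (Perm V) ℝ where
  toFun := Rm
  map_one' := by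
    ext s s'
    simp only [Rm, mul_one, one_apply]
    by_cases h : s = s'
    · simp [h]
    · rw [if_neg (fun h' => h h'.symm), if_neg h]
  map_mul' g h := by
    ext s s'
    simp only [Rm, mul_apply, ite_mul, one_mul, zero_mul, sum_ite_eq', mem_univ, if_true,
      mul_assoc]

theorem Rm_transpose (g : Perm V) : (Rm g)ᵀ = Rm g⁻¹ := by
  ext s s'
  simp only [Rm, transpose_apply]
  have : (s = s' * g) ↔ (s' = s * g⁻¹) := by
    constructor
    · rintro rfl
      simp
    · rintro rfl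
      simp
  simp only [this]

/-- the permutations fixing every element of `S` -/
def sub (S : Finset V) : Subgroup (Perm V) where
  carrier := {g | ∀ i ∈ S, g i = i}
  mul_mem' := fun {a b} ha hb i hi => by
    rw [Perm.mul_apply, hb i hi, ha i hi]
  one_mem' := fun i _ => rfl
  inv_mem' := fun {a} ha i hi => by
    rw [Perm.inv_eq_iff_eq, ha i hi]

theorem mem_sub (S : Finset V) (g : Perm V) : g ∈ sub S ↔ g ∈ fixS S := by
  simp only [fixS, mem_filter, mem_univ, true_and]
  rfl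

instance (S : Finset V) : DecidablePred (· ∈ sub S) := fun g =>
  decidable_of_iff (g ∈ fixS S) (mem_sub S g).symm

theorem sum_sub {M : Type*} [AddCommMonoid M] (S : Finset V) (f : Perm V → M) :
    ∑ g : sub S, f g = ∑ g ∈ fixS S, f g := by
  rw [← Finset.sum_subtype (fixS S) (fun g => (mem_sub S g).symm)]

theorem card_sub (S : Finset V) : Fintype.card (sub S) = (fixS S).card := by
  rw [Fintype.card_subtype]
  congr 1
  ext g
  simp only [mem_filter, mem_univ, true_and]
  exact mem_sub S g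

theorem kap_eq (S : Finset V) : kap (RmHom.comp (sub S).subtype) = Kap S := by
  rw [kap, Kap, card_sub]
  congr 1
  rw [← sum_sub S (fun a => ∑ b ∈ fixS S, Rm (a * b * a⁻¹ * b⁻¹))]
  refine sum_congr rfl fun a _ => ?_
  rw [← sum_sub S (fun b => Rm ((a : Perm V) * b * (a : Perm V)⁻¹ * b⁻¹))]
  rfl

/-- IP-E8: the representation lemma -/
theorem rep_lemma (R : Fin 4 → Finset V) (hR : ∀ i j, i ≠ j → Disjoint (R i) (R j))
    (E : Matrix (Perm V) (Perm V) ℝ) (hE : E.IsSymm) (hEE : E * E = E)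
    (hc : ∀ g, E * Rm g = Rm g * E) :
    4 * Real.sqrt (trace E) ≤ ∑ i, trace (Kap (R i)ᶜ * E) := by
  obtain ⟨m, hm⟩ := exists_nat_ge (trace E)
  have h := main_ind (G := fun i => sub (R i)ᶜ) (fun i => RmHom.comp (sub (R i)ᶜ).subtype)
    (fun i a => Rm_transpose _) (fun i j hij a b => ?_) m E hE hEE (fun i a => hc _) hm
  · simpa only [kap_eq] using h
  · have h1 : Commute (a : Perm V) (b : Perm V) := by
      apply Perm.Disjoint.commute
      intro x
      by_cases hx : x ∈ R i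
      · right
        have : x ∈ (R j)ᶜ := by
          rw [mem_compl]
          intro hxj
          exact (Finset.disjoint_left.mp (hR i j hij)) hx hxj
        exact b.2 x this
      · left
        exact a.2 x (mem_compl.mpr hx)
    exact h1.map RmHom

end perm

end Pool.Agent.Helper77.IP
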